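import Pool.Agent.H39.IX.Targets2

/-!
# MP_323167_an: a sequence of groups near a von Neumann algebra is conjugated into it (row KAZ)
-/

set_option autoImplicit false

open scoped InnerProductSpace Topology
open Filter Finset Pool.Agent.H80.G2

namespace Pool.Agent.H43.IX

open Pool.Agent.H39.IX

variable {H : Type} [NormedAddCommGroup H] [InnerProductSpace ℂ H] [CompleteSpace H]

theorem uh_norm {u : H →L[ℂ] H} (hu : UH u) : ‖u‖ ≤ 1 := by
  have h1 : ‖u‖ * ‖u‖ = ‖(1 : H →L[ℂ] H)‖ := by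
    rw [← CStarRing.norm_star_mul_self, hu.1]
  have h2 : ‖(1 : H →L[ℂ] H)‖ ≤ 1 := ContinuousLinearMap.norm_id_le
  nlinarith [norm_nonneg u]

theorem uh_star {u : H →L[ℂ] H} (hu : UH u) : UH (star u) := by
  refine ⟨?_, ?_⟩
  · rw [star_star]
    exact hu.2
  · rw [star_star]
    exact hu.1

theorem inG_uh {G : ℕ → Finset (H →L[ℂ] H)} (hG : GrpSeq G) {g : H →L[ℂ] H} (hg : InG G g) :
    UH g := by
  obtain ⟨n, hn⟩ := hg
  refine ⟨hG.uni n g hn, ?_⟩
  have h1 := hG.uni n (star g) (hG.star n g hn)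
  rwa [star_star] at h1

theorem inG_star {G : ℕ → Finset (H →L[ℂ] H)} (hG : GrpSeq G) {g : H →L[ℂ] H} (hg : InG G g) :
    InG G (star g) := by
  obtain ⟨n, hn⟩ := hg
  exact ⟨n, hG.star n g hn⟩

theorem inG_mono {G : ℕ → Finset (H →L[ℂ] H)} (hG : GrpSeq G) {g : H →L[ℂ] H} {n k : ℕ}
    (hg : g ∈ G n) (hnk : n ≤ k) : g ∈ G k := by
  induction k, hnk using Nat.le_induction with
  | base => exact hg
  | succ k _ ih => exact hG.mono k ih

theorem inG_mul {G : ℕ → Finset (H →L[ℂ] H)} (hG : GrpSeq G) {g h : H →L[ℂ] H} (hg : InG G g)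
    (hh : InG G h) : InG G (g * h) := by
  obtain ⟨n, hn⟩ := hg
  obtain ⟨k, hk⟩ := hh
  exact ⟨max n k, hG.mul _ g (inG_mono hG hn (le_max_left _ _)) h
    (inG_mono hG hk (le_max_right _ _))⟩

theorem pf_KAZ (hMN : T_MN) (hPOL : T_POL) (hKZB : T_KZB) : T_KAZ := by
  classical
  intro H _ _ _ N G hG d hd0 hd hnear
  obtain ⟨m, hm⟩ := hMN H G hG
  -- unitary elements of `N` near the groups
  have hex : ∀ g : H →L[ℂ] H, ∃ v : H →L[ℂ] H, InG G g → Uni N v ∧ ‖v - g‖ ≤ 4 * d := by
    intro g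
    by_cases hg : InG G g
    · obtain ⟨y, hy, hyg⟩ := hnear g hg
      obtain ⟨v, hv, hvg, -, hvN, -⟩ := hPOL H y g d (inG_uh hG hg)
        (by rw [norm_sub_rev]; exact hyg) (by linarith)
      exact ⟨v, fun _ => ⟨⟨hvN N hy, hv.1, hv.2⟩, hvg⟩⟩
    · exact ⟨0, fun h => absurd h hg⟩
  choose v hv using hex
  have hone : InG G (1 : H →L[ℂ] H) := ⟨0, hG.one 0⟩
  have hAph : Aph N G (12 * d) v := by
    refine ⟨fun g hg => (hv g hg).1, fun g hg h hh => ?_⟩
    have h1 := (hv (g * h) (inG_mul hG hg hh)).2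
    have h2 := (hv g hg).2
    have h3 := (hv h hh).2
    have h4 : ‖h‖ ≤ 1 := uh_norm (inG_uh hG hh)
    have h5 : ‖v g‖ ≤ 1 := uh_norm ⟨(hv g hg).1.2.1, (hv g hg).1.2.2⟩
    have e1 : v (g * h) - v g * v h = (v (g * h) - g * h) - (v g - g) * h - v g * (v h - h) := by
      noncomm_ring
    rw [e1]
    calc ‖(v (g * h) - g * h) - (v g - g) * h - v g * (v h - h)‖
        ≤ ‖(v (g * h) - g * h) - (v g - g) * h‖ + ‖v g * (v h - h)‖ := norm_sub_le _ _
      _ ≤ (‖v (g * h) - g * h‖ + ‖(v g - g) * h‖) + ‖v g * (v h - h)‖ := by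
          gcongr
          exact norm_sub_le _ _
      _ ≤ (4 * d + ‖v g - g‖ * ‖h‖) + ‖v g‖ * ‖v h - h‖ := by
          gcongr
          · exact norm_mul_le _ _
          · exact norm_mul_le _ _
      _ ≤ (4 * d + 4 * d * 1) + 1 * (4 * d) := by gcongr
      _ = 12 * d := by ring
  obtain ⟨be, hbe, hbev⟩ := hKZB H N G hG (12 * d) (by linarith) (by linarith) v hAph
  have hbmul : ∀ g, InG G g → ∀ h, InG G h → be (g * h) = be g * be h := by
    intro g hg h hh
    have h1 := hbe.mul g hg h hh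
    exact sub_eq_zero.1 (norm_le_zero_iff.1 h1)
  have hbu : ∀ g, InG G g → UH (be g) := fun g hg => ⟨(hbe.uni g hg).2.1, (hbe.uni g hg).2.2⟩
  have hbg : ∀ g, InG G g → ‖be g - g‖ ≤ 22 * d := by
    intro g hg
    have h1 := hbev g hg
    have h2 := (hv g hg).2
    calc ‖be g - g‖ = ‖(be g - v g) + (v g - g)‖ := by congr 1; abel
      _ ≤ ‖be g - v g‖ + ‖v g - g‖ := norm_add_le _ _
      _ ≤ 3 / 2 * (12 * d) + 4 * d := by gcongr
      _ = 22 * d := by ring
  have hb1 : be 1 = 1 := by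
    have h1 := hbmul 1 hone 1 hone
    rw [mul_one] at h1
    calc be 1 = (star (be 1) * be 1) * be 1 := by rw [(hbu 1 hone).1, one_mul]
      _ = star (be 1) * (be 1 * be 1) := mul_assoc _ _ _
      _ = star (be 1) * be 1 := by rw [← h1]
      _ = 1 := (hbu 1 hone).1
  have hbs : ∀ g, InG G g → be (star g) = star (be g) := by
    intro g hg
    have h1 := hbmul (star g) (inG_star hG hg) g hg
    rw [(inG_uh hG hg).1, hb1] at h1
    calc be (star g) = be (star g) * (be g * star (be g)) := by rw [(hbu g hg).2, mul_one]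
      _ = (be (star g) * be g) * star (be g) := (mul_assoc _ _ _).symm
      _ = star (be g) := by rw [← h1, one_mul]
  -- the average
  set φ : (H →L[ℂ] H) → (H →L[ℂ] H) := fun g => be g * star g with hφ
  have hBd : Bd G φ 1 := by
    intro g hg
    calc ‖be g * star g‖ ≤ ‖be g‖ * ‖star g‖ := norm_mul_le _ _
      _ ≤ 1 * 1 := mul_le_mul (uh_norm (hbu g hg)) (uh_norm (uh_star (inG_uh hG hg)))
          (norm_nonneg _) zero_le_one
      _ = 1 := one_mul 1
  set S : H →L[ℂ] H := m φ with hS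
  have hS1 : ‖S - 1‖ ≤ 22 * d := by
    have h1 : m (fun g => φ g + -1) = m φ + m (fun _ => -1) :=
      hm.add φ (fun _ => -1) 1 1 hBd (fun g _ => by
        rw [norm_neg]
        exact ContinuousLinearMap.norm_id_le)
    rw [hm.cst, ← sub_eq_add_neg] at h1
    rw [hS, ← h1]
    apply hm.nrm
    intro g hg
    have e1 : φ g + -1 = (be g - g) * star g := by
      rw [hφ, sub_mul, (inG_uh hG hg).2]
      simp only [← sub_eq_add_neg]
    refine (congrArg norm e1).le.trans ?_
    calc ‖(be g - g) * star g‖ ≤ ‖be g - g‖ * ‖star g‖ := norm_mul_le _ _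
      _ ≤ (22 * d) * 1 := mul_le_mul (hbg g hg) (uh_norm (uh_star (inG_uh hG hg)))
          (norm_nonneg _) (by linarith)
      _ = 22 * d := mul_one _
  have hinv : ∀ h, InG G h → S * h = be h * S := by
    intro h hh
    have hBd2 : Bd G (fun g => be h * φ g) 1 := by
      intro g hg
      calc ‖be h * φ g‖ ≤ ‖be h‖ * ‖φ g‖ := norm_mul_le _ _
        _ ≤ 1 * 1 := mul_le_mul (uh_norm (hbu h hh)) (hBd g hg) (norm_nonneg _) zero_le_one
        _ = 1 := one_mul 1
    have e1 : m (fun g => be h * φ g) = be h * S := hm.mull φ 1 hBd (be h)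
    have e2 : m (fun g => (be h * φ g) * star h) = (be h * S) * star h := by
      rw [← e1]
      exact hm.mulr (fun g => be h * φ g) 1 hBd2 (star h)
    have e3 : m (fun g => (be h * φ g) * star h) = m (fun g => φ (h * g)) := by
      apply hm.eqv
      intro g hg
      rw [hφ]
      simp only
      rw [hbmul h hh g hg, star_mul]
      simp only [mul_assoc]
    have e4 : m (fun g => φ (h * g)) = S := hm.invl φ 1 hBd h hh
    have e5 : S = (be h * S) * star h := e4.symm.trans (e3.symm.trans e2)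
    calc S * h = ((be h * S) * star h) * h := by rw [← e5]
      _ = (be h * S) * (star h * h) := mul_assoc _ _ _
      _ = be h * S := by rw [(inG_uh hG hh).1, mul_one]
  have hinv' : ∀ h, InG G h → h * star S = star S * be h := by
    intro h hh
    have h1 := hinv (star h) (inG_star hG hh)
    rw [hbs h hh] at h1
    have h2 := congrArg star h1
    rw [star_mul, star_mul, star_star, star_star] at h2
    exact h2
  obtain ⟨s, hs, hs1, -, -, hsi⟩ := hPOL H S 1 (22 * d) ⟨by simp, by simp⟩ hS1 (by linarith)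
  refine ⟨s, hs, by linarith, ?_⟩
  intro g hg
  have h1 : s * g = be g * s := hsi g (be g) (hinv g hg) (hinv' g hg)
  have h2 : s * g * star s = be g := by
    rw [h1, mul_assoc, hs.2, mul_one]
  rw [h2]
  exact (hbe.uni g hg).1

end Pool.Agent.H43.IX
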